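import Pool.Agent.H66.IQ.TD
import Pool.Agent.H91.IQ.KST
import Pool.Agent.H91.XQ.CWS
import Pool.Agent.H70.EH.RL2

/-!
# A game and a leaf on strings of given weight: relative estimate

The cube is divided into the cells of the leaf `a`; on each cell the game does not see the weight, and
the probability of a cell under the weight law is `1 + small` times its uniform probability. So the error
is relative to the probability of the leaf.
-/

set_option autoImplicit false

namespace Pool.Agent.H15.XH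

open Finset Pool.Agent.H6.NB Pool.Agent.H70.EH Pool.Agent.H78.XQ
open Pool.Agent.H66.IQ
open Pool.Agent.H68.AC (PA Wt fd Ext ind)

/-! ### Binomial coefficients -/

theorem chs_step (N r A X Y η : ℝ) (hN : 0 < N) (hX : 0 ≤ X) (h : Y * N = X * r)
    (h1 : A ≤ r) (h2 : r ≤ N - A) (h3 : (1 / 2 - η) * N ≤ A) :
    (1 - 2 * η) * X ≤ 2 * Y ∧ 2 * Y ≤ (1 + 2 * η) * X := by
  have h4 := mul_le_mul_of_nonneg_left (show (1 / 2 - η) * N ≤ r by linarith) hX
  have h5 := mul_le_mul_of_nonneg_left (show r ≤ (1 / 2 + η) * N by linarith) hX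
  constructor
  · have : (1 - 2 * η) * X * N ≤ 2 * Y * N := by linarith
    exact le_of_mul_le_mul_right this hN
  · have : 2 * Y * N ≤ (1 + 2 * η) * X * N := by linarith
    exact le_of_mul_le_mul_right this hN

theorem chs : ∀ (c N W k A : ℕ) (η : ℝ), 0 ≤ η → η ≤ 1 / 2 → k ≤ c → A + c ≤ W → A + c + W ≤ N →
    (1 / 2 - η) * N ≤ A →
    (1 - 2 * η) ^ c * (N.choose W : ℝ) ≤ 2 ^ c * ((N - c).choose (W - k) : ℝ) ∧
      2 ^ c * ((N - c).choose (W - k) : ℝ) ≤ (1 + 2 * η) ^ c * (N.choose W : ℝ) := by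
  intro c
  induction c with
  | zero =>
    intro N W k A η h0 h1 hk hA hN hη
    have : k = 0 := by omega
    subst this
    simp
  | succ c ih =>
    intro N W k A η h0 h1 hk hA hN hη
    have hNpos : 0 < N := by omega
    have hNr : (0 : ℝ) < N := by exact_mod_cast hNpos
    have hNA : ((N - 1 : ℕ) : ℝ) ≤ N := by exact_mod_cast Nat.sub_le _ _
    have hη' : (1 / 2 - η) * ((N - 1 : ℕ) : ℝ) ≤ A :=
      (mul_le_mul_of_nonneg_left hNA (by linarith)).trans hη
    have hC0 : (0 : ℝ) ≤ (N.choose W : ℝ) := Nat.cast_nonneg _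
    have hl0 : 0 ≤ 1 - 2 * η := by linarith
    have hu0 : 0 ≤ 1 + 2 * η := by linarith
    have hA1 : (A : ℝ) ≤ W := by exact_mod_cast (show A ≤ W by omega)
    have hA2 : (A : ℝ) + W ≤ N := by exact_mod_cast (show A + W ≤ N by omega)
    have fin : ∀ (Y Z : ℝ), (1 - 2 * η) * (N.choose W : ℝ) ≤ 2 * Y → 2 * Y ≤ (1 + 2 * η) *
        (N.choose W : ℝ) → (1 - 2 * η) ^ c * Y ≤ 2 ^ c * Z → 2 ^ c * Z ≤ (1 + 2 * η) ^ c * Y →
        (1 - 2 * η) ^ (c + 1) * (N.choose W : ℝ) ≤ 2 ^ (c + 1) * Z ∧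
          2 ^ (c + 1) * Z ≤ (1 + 2 * η) ^ (c + 1) * (N.choose W : ℝ) := by
      intro Y Z y1 y2 z1 z2
      have a1 := mul_le_mul_of_nonneg_left y1 (pow_nonneg hl0 c)
      have a2 := mul_le_mul_of_nonneg_left y2 (pow_nonneg hu0 c)
      constructor
      · calc (1 - 2 * η) ^ (c + 1) * (N.choose W : ℝ)
            = (1 - 2 * η) ^ c * ((1 - 2 * η) * (N.choose W : ℝ)) := by ring
          _ ≤ (1 - 2 * η) ^ c * (2 * Y) := a1
          _ = 2 * ((1 - 2 * η) ^ c * Y) := by ring
          _ ≤ 2 * (2 ^ c * Z) := by linarith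
          _ = 2 ^ (c + 1) * Z := by ring
      · calc 2 ^ (c + 1) * Z = 2 * (2 ^ c * Z) := by ring
          _ ≤ 2 * ((1 + 2 * η) ^ c * Y) := by linarith
          _ = (1 + 2 * η) ^ c * (2 * Y) := by ring
          _ ≤ (1 + 2 * η) ^ c * ((1 + 2 * η) * (N.choose W : ℝ)) := a2
          _ = (1 + 2 * η) ^ (c + 1) * (N.choose W : ℝ) := by ring
    obtain ⟨M, rfl⟩ : ∃ M, N = M + 1 := ⟨N - 1, by omega⟩
    have e : M + 1 - (c + 1) = M - c := by omega
    have e' : M + 1 - 1 = M := rfl
    rw [e'] at hη'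
    rcases Nat.eq_zero_or_pos k with hk0 | hk0
    · subst hk0
      obtain ⟨a, b⟩ := ih M W 0 A η h0 h1 (Nat.zero_le _) (by omega) (by omega) hη'
      have h3 : (M.choose W : ℝ) * ((M + 1 : ℕ) : ℝ) =
          ((M + 1).choose W : ℝ) * (((M + 1 : ℕ) : ℝ) - W) := by
        have h4 := Nat.choose_mul_succ_eq M W
        have h5 : ((M + 1 - W : ℕ) : ℝ) = ((M + 1 : ℕ) : ℝ) - W :=
          Nat.cast_sub (by omega)
        rw [← h5]
        exact_mod_cast h4
      obtain ⟨s1, s2⟩ := chs_step _ _ A _ _ η hNr hC0 h3 (by linarith) (by linarith) hη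
      rw [e]
      exact fin _ _ s1 s2 a b
    · obtain ⟨W', rfl⟩ : ∃ W', W = W' + 1 := ⟨W - 1, by omega⟩
      obtain ⟨k', rfl⟩ : ∃ k', k = k' + 1 := ⟨k - 1, by omega⟩
      obtain ⟨a, b⟩ := ih M W' k' A η h0 h1 (by omega) (by omega) (by omega) hη'
      have h3 : (M.choose W' : ℝ) * ((M + 1 : ℕ) : ℝ) =
          ((M + 1).choose (W' + 1) : ℝ) * ((W' + 1 : ℕ) : ℝ) := by
        have h4 := Nat.add_one_mul_choose_eq M W'
        rw [mul_comm (M.choose W' : ℝ)]
        exact_mod_cast h4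
      obtain ⟨s1, s2⟩ := chs_step _ _ A _ _ η hNr hC0 h3 hA1 (by linarith) hη
      have e2 : W' + 1 - (k' + 1) = W' - k' := by omega
      rw [e, e2]
      exact fin _ _ s1 s2 a b

/-! ### The cells of a leaf -/

section

variable {V : Type} [Fintype V] [DecidableEq V]

/-- the cell of `y` as a partial assignment -/
def kc (a : Lf V) (y : V → Bool) : V → Option Bool := fun v => if v ∈ a.Q y then some (y v) else none

open Classical in
/-- the cell of `y` -/
noncomputable def cl (a : Lf V) (y : V → Bool) : Finset (V → Bool) := univ.filter fun y' => Ext (kc a y) y'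

theorem mem_cl (a : Lf V) (y y' : V → Bool) : y' ∈ cl a y ↔ ∀ v ∈ a.Q y, y' v = y v := by
  classical
  unfold cl
  rw [mem_filter]
  constructor
  · rintro ⟨_, h⟩ v hv
    exact h v (y v) (by unfold kc; rw [if_pos hv])
  · intro h
    refine ⟨mem_univ _, fun v b hb => ?_⟩
    unfold kc at hb
    split_ifs at hb with h1
    rw [h v h1]
    exact Option.some.inj hb

theorem cl_self (a : Lf V) (y : V → Bool) : y ∈ cl a y := (mem_cl a y y).2 fun _ _ => rfl

theorem cl_data (a : Lf V) {y y' : V → Bool} (h : y' ∈ cl a y) :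
    a.f y' = a.f y ∧ a.Q y' = a.Q y ∧ kc a y' = kc a y ∧ cl a y' = cl a y ∧ y ∈ cl a y' := by
  have h1 := (mem_cl a y y').1 h
  obtain ⟨h2, h3⟩ := a.path y y' h1
  have h4 : kc a y' = kc a y := by
    funext v
    unfold kc
    rw [h3]
    by_cases hv : v ∈ a.Q y
    · rw [if_pos hv, if_pos hv, h1 v hv]
    · rw [if_neg hv, if_neg hv]
  have h5 : cl a y' = cl a y := by
    classical
    unfold cl
    rw [h4]
  exact ⟨h2, h3, h4, h5, by rw [h5]; exact cl_self a y⟩

theorem cl_symm (a : Lf V) (y y' : V → Bool) : y' ∈ cl a y ↔ y ∈ cl a y' :=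
  ⟨fun h => (cl_data a h).2.2.2.2, fun h => (cl_data a h).2.2.2.2⟩

/-- the free variables of a cell -/
theorem nv_kc (a : Lf V) (y : V → Bool) :
    nv (kc a y) none + (a.Q y).card = Fintype.card V ∧ nv (kc a y) (some true) ≤ (a.Q y).card := by
  have e : (univ.filter fun v => kc a y v = none) = univ \ a.Q y := by
    ext v
    simp only [mem_filter, mem_univ, true_and, mem_sdiff]
    unfold kc
    by_cases hv : v ∈ a.Q y
    · simp [hv]
    · simp [hv]
  constructor
  · unfold nv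
    rw [e, card_univ_sdiff]
    have := card_le_univ (a.Q y)
    omega
  · unfold nv
    refine card_le_card fun v hv => ?_
    have h1 := (mem_filter.1 hv).2
    unfold kc at h1
    by_contra h2
    rw [if_neg h2] at h1
    exact absurd h1 (by simp)

/-- the number of points of a cell -/
theorem card_cl (a : Lf V) (y : V → Bool) : (cl a y).card = 2 ^ nv (kc a y) none := by
  classical
  have e : cl a y = (univ : Finset ({v // kc a y v = none} → Bool)).map
      ⟨Pool.Agent.H91.IQ.kstF (kc a y), Pool.Agent.H91.IQ.kst_inj (kc a y)⟩ := by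
    ext y'
    unfold cl
    simp only [mem_filter, mem_univ, true_and, mem_map, Function.Embedding.coeFn_mk]
    constructor
    · intro h
      exact ⟨_, Pool.Agent.H91.IQ.kst_FR (kc a y) h⟩
    · rintro ⟨z, rfl⟩
      exact Pool.Agent.H91.IQ.kst_ext (kc a y) z
  rw [e, card_map, card_univ, Fintype.card_fun, Fintype.card_bool]
  congr 1
  unfold nv
  rw [Fintype.card_subtype]

/-- the mean over a cell -/
theorem sum_cl (a : Lf V) (y : V → Bool) (F : (V → Bool) → ℝ) :
    (∑ y' ∈ cl a y, F y') / (cl a y).card = mn (rst (kc a y) F) := by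
  classical
  rw [Pool.Agent.H91.IQ.kst_mn (kc a y) F (fun z => F (Pool.Agent.H91.IQ.kstF (kc a y) z))
    (fun _ => rfl)]
  have e : cl a y = (univ : Finset ({v // kc a y v = none} → Bool)).map
      ⟨Pool.Agent.H91.IQ.kstF (kc a y), Pool.Agent.H91.IQ.kst_inj (kc a y)⟩ := by
    ext y'
    unfold cl
    simp only [mem_filter, mem_univ, true_and, mem_map, Function.Embedding.coeFn_mk]
    constructor
    · intro h
      exact ⟨_, Pool.Agent.H91.IQ.kst_FR (kc a y) h⟩
    · rintro ⟨z, rfl⟩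
      exact Pool.Agent.H91.IQ.kst_ext (kc a y) z
  rw [e, sum_map, card_map, card_univ, Fintype.card_fun, Fintype.card_bool]
  unfold mn
  simp only [Function.Embedding.coeFn_mk]
  push_cast
  rfl

/-- the strings of weight `W` of a cell -/
theorem ws_cl (a : Lf V) (W : ℕ) (y y' : V → Bool) :
    y' ∈ ws (kc a y) W ↔ y' ∈ cl a y ∧ nt y' = W := by
  classical
  unfold ws cl
  rw [mem_filter, mem_filter]
  simp only [mem_univ, true_and]

/-- double counting -/
theorem dbl (a : Lf V) (S : Finset (V → Bool)) (F : (V → Bool) → ℝ) :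
    ∑ y, (∑ y' ∈ S.filter (fun y' => y' ∈ cl a y), F y') / (cl a y).card = ∑ y ∈ S, F y := by
  classical
  have h1 : ∀ y, (∑ y' ∈ S.filter (fun y' => y' ∈ cl a y), F y') / ((cl a y).card : ℝ) =
      ∑ y' ∈ S, if y' ∈ cl a y then F y' / (cl a y').card else 0 := by
    intro y
    rw [sum_div, sum_filter]
    refine sum_congr rfl fun y' _ => ?_
    by_cases h : y' ∈ cl a y
    · rw [if_pos h, if_pos h, (cl_data a h).2.2.2.1]
    · rw [if_neg h, if_neg h]
  rw [sum_congr rfl fun y _ => h1 y, sum_comm]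
  refine sum_congr rfl fun y' _ => ?_
  have h2 : ∀ y, (if y' ∈ cl a y then F y' / ((cl a y').card : ℝ) else 0) =
      if y ∈ cl a y' then F y' / ((cl a y').card : ℝ) else 0 := by
    intro y
    by_cases h : y' ∈ cl a y
    · rw [if_pos h, if_pos ((cl_symm a y y').1 h)]
    · rw [if_neg h, if_neg fun h' => h ((cl_symm a y y').2 h')]
  rw [sum_congr rfl fun y _ => h2 y, ← sum_filter, sum_const, filter_mem_eq_inter, univ_inter,
    nsmul_eq_mul]
  have h3 : (0 : ℝ) < (cl a y').card := by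
    exact_mod_cast card_pos.2 ⟨y', cl_self a y'⟩
  field_simp

/-- the mean cell by cell -/
theorem mn_cell (a : Lf V) (F : (V → Bool) → ℝ) : mn F = mn fun y => mn (rst (kc a y) F) := by
  classical
  have h := dbl a univ F
  have h1 : ∀ y, mn (rst (kc a y) F) =
      (∑ y' ∈ (univ : Finset (V → Bool)).filter (fun y' => y' ∈ cl a y), F y') / (cl a y).card := by
    intro y
    rw [← sum_cl a y F, filter_mem_eq_inter, univ_inter]
  simp only [h1]
  unfold mn
  rw [← h]

/-- the relative probability of the cell of `y` -/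
noncomputable def Lr (a : Lf V) (W : ℕ) (y : V → Bool) : ℝ :=
  2 ^ Fintype.card V * (ws (kc a y) W).card / ((cl a y).card * (ws (fun _ : V => none) W).card)

/-- the mean over the strings of weight `W` cell by cell -/
theorem wm_cell (a : Lf V) (W : ℕ) (F : (V → Bool) → ℝ) :
    wm (fun _ => none) W F = mn fun y => Lr a W y * wm (kc a y) W F := by
  classical
  have h := dbl a (ws (fun _ : V => none) W) F
  have h0 : ∀ y, (ws (fun _ : V => none) W).filter (fun y' => y' ∈ cl a y) = ws (kc a y) W := by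
    intro y
    ext y'
    rw [mem_filter, ws_cl]
    unfold ws
    rw [mem_filter]
    constructor
    · rintro ⟨⟨_, _, h1⟩, h2⟩
      exact ⟨h2, h1⟩
    · rintro ⟨h1, h2⟩
      exact ⟨⟨mem_univ _, fun v b hb => absurd hb.symm (Option.some_ne_none _), h2⟩, h1⟩
  have h2 : ∀ y, Lr a W y * wm (kc a y) W F = 2 ^ Fintype.card V *
      ((∑ y' ∈ (ws (fun _ : V => none) W).filter (fun y' => y' ∈ cl a y), F y') /
        (cl a y).card) / (ws (fun _ : V => none) W).card := by
    intro y
    rw [h0]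
    unfold Lr wm
    rcases Finset.eq_empty_or_nonempty (ws (kc a y) W) with h3 | h3
    · rw [h3]
      simp
    · have h4 : ((ws (kc a y) W).card : ℝ) ≠ 0 := by
        have := card_pos.2 h3
        exact_mod_cast this.ne'
      have h5 : ((cl a y).card : ℝ) ≠ 0 := by
        have := card_pos.2 ⟨y, cl_self a y⟩
        exact_mod_cast this.ne'
      rcases eq_or_ne ((ws (fun _ : V => none) W).card : ℝ) 0 with h6 | h6
      · rw [h6]
        simp
      · field_simp
  simp only [h2]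
  unfold wm mn
  rw [← sum_div, ← mul_sum, h]
  have h7 : (2 : ℝ) ^ Fintype.card V ≠ 0 := by positivity
  field_simp

theorem bi01 (b : Bool) : 0 ≤ bi b ∧ bi b ≤ 1 := by
  cases b <;> simp [bi]

/-- the relative probability of a cell -/
theorem Lr_bd (a : Lf V) (W w A : ℕ) (η : ℝ) (y : V → Bool) (hQ : (a.Q y).card ≤ w)
    (hη : 0 ≤ η) (hη1 : η ≤ 1 / 2) (hηw : 2 * η * w ≤ 1) (h1 : A + w ≤ W)
    (h2 : A + w + W ≤ Fintype.card V) (h3 : (1 / 2 - η) * Fintype.card V ≤ A) :
    0 ≤ Lr a W y ∧ |Lr a W y - 1| ≤ 4 * η * w := by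
  obtain ⟨n1, n2⟩ := nv_kc a y
  have hk : nv (kc a y) (some true) ≤ W := by omega
  obtain ⟨c, hc⟩ : ∃ c, c = (a.Q y).card := ⟨_, rfl⟩
  obtain ⟨k, hkk⟩ : ∃ k, k = nv (kc a y) (some true) := ⟨_, rfl⟩
  obtain ⟨N, hN⟩ : ∃ N, N = Fintype.card V := ⟨_, rfl⟩
  rw [← hc] at n1 n2 hQ
  rw [← hkk] at n2 hk
  rw [← hN] at n1 h2 h3
  have hnone : nv (kc a y) none = N - c := by omega
  have hws : (ws (kc a y) W).card = (N - c).choose (W - k) := by
    rw [Pool.Agent.H91.XQ.cws V (kc a y) W (by rw [← hkk]; exact hk), hnone, ← hkk]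
  have hws0 : (ws (fun _ : V => none) W).card = N.choose W := by
    have e0 : nv (fun _ : V => (none : Option Bool)) (some true) = 0 := by
      unfold nv
      simp
    have e1 : nv (fun _ : V => (none : Option Bool)) none = N := by
      unfold nv
      simp [hN]
    rw [Pool.Agent.H91.XQ.cws V (fun _ => none) W (by rw [e0]; exact Nat.zero_le _), e0, e1,
      Nat.sub_zero]
  obtain ⟨b1, b2⟩ := chs c N W k A η hη hη1 n2 (by omega) (by omega) h3
  have hC : (0 : ℝ) < (N.choose W : ℝ) := by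
    exact_mod_cast Nat.choose_pos (by omega)
  have hL : Lr a W y = 2 ^ c * ((N - c).choose (W - k) : ℝ) / (N.choose W : ℝ) := by
    unfold Lr
    rw [hws, hws0, card_cl, hnone, ← hN]
    have e : (2 : ℝ) ^ N = 2 ^ (N - c) * 2 ^ c := by
      rw [← pow_add]
      congr 1
      omega
    rw [e]
    have h5 : (2 : ℝ) ^ (N - c) ≠ 0 := by positivity
    push_cast
    field_simp
  have l1 : (1 - 2 * η) ^ c ≤ Lr a W y := by
    rw [hL, le_div_iff₀ hC]
    exact b1
  have l2 : Lr a W y ≤ (1 + 2 * η) ^ c := by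
    rw [hL, div_le_iff₀ hC]
    exact b2
  have hcw : (c : ℝ) ≤ w := by exact_mod_cast hQ
  have l3 : 1 - 2 * η * w ≤ (1 - 2 * η) ^ c := by
    have h6 := one_add_mul_le_pow (show (-2 : ℝ) ≤ -(2 * η) by linarith) c
    have h7 := mul_le_mul_of_nonneg_left hcw (show 0 ≤ 2 * η by linarith)
    have h8 : (1 + -(2 * η)) ^ c = (1 - 2 * η) ^ c := by ring
    rw [h8] at h6
    linarith
  have l4 : (1 + 2 * η) ^ c ≤ 1 + 4 * η * w := by
    have h6 : (1 + 2 * η) ^ c ≤ Real.exp (2 * η * c) := by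
      have h7 := Real.add_one_le_exp (2 * η)
      calc (1 + 2 * η) ^ c ≤ Real.exp (2 * η) ^ c :=
            pow_le_pow_left₀ (by linarith) (by linarith) c
        _ = Real.exp (2 * η * c) := by
            rw [← Real.exp_nat_mul]
            congr 1
            ring
    have h7 : Real.exp (2 * η * c) ≤ Real.exp (2 * η * w) :=
      Real.exp_le_exp.2 (mul_le_mul_of_nonneg_left hcw (by linarith))
    have h8 : Real.exp (2 * η * w) ≤ 1 + 2 * (2 * η * w) := by
      have h0 : 0 ≤ 2 * η * w := by positivity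
      have h9 := Real.abs_exp_sub_one_sub_id_le (show |2 * η * w| ≤ 1 by
        rw [abs_of_nonneg h0]; exact hηw)
      have h10 := (abs_le.1 h9).2
      have h11 : (2 * η * w) ^ 2 ≤ 2 * η * w := by
        rw [sq]
        exact mul_le_of_le_one_right h0 hηw
      linarith
    linarith
  have hηw0 : 0 ≤ 2 * η * w := by positivity
  refine ⟨le_trans (pow_nonneg (by linarith) c) l1, ?_⟩
  rw [abs_le]
  constructor <;> linarith

/-- the game on a cell -/
theorem cell_bd (hGWT : T_GWT) (hKST : T_KST) (a : Lf V) (t : Tr V) (W w A : ℕ) (δ : ℝ)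
    (y : V → Bool) (hQ : (a.Q y).card ≤ w) (ht : t.wd ≤ w) (hδ : 0 ≤ δ)
    (hF0 : ∀ y, 0 ≤ t.ev y) (hF1 : ∀ y, t.ev y ≤ 1)
    (hW : |(W : ℝ) - Fintype.card V / 2| ≤ δ * Fintype.card V) (hw : 1 ≤ w)
    (h8 : 2 * δ + w / Fintype.card V ≤ 1 / 8) (hηw : 2 * (δ + w / Fintype.card V) * w ≤ 1)
    (h1 : A + w ≤ W) (h2 : A + w + W ≤ Fintype.card V)
    (h3 : (1 / 2 - (δ + w / Fintype.card V)) * Fintype.card V ≤ A) (hV : 0 < Fintype.card V) :
    |Lr a W y * wm (kc a y) W t.ev - mn (rst (kc a y) t.ev)| ≤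
      4 * (δ + w / Fintype.card V) * w +
        (4 * w * (2 * δ + w / Fintype.card V + √(2 / Fintype.card V)) + 32 / Fintype.card V) := by
  obtain ⟨n1, n2⟩ := nv_kc a y
  have hVr : (0 : ℝ) < Fintype.card V := by exact_mod_cast hV
  have hwV : 0 ≤ (w : ℝ) / Fintype.card V := by positivity
  obtain ⟨L0, L1⟩ := Lr_bd a W w A (δ + w / Fintype.card V) y hQ (by positivity) (by linarith)
    hηw h1 h2 h3
  have hk : nv (kc a y) (some true) ≤ W := by omega
  obtain ⟨t', -, -, hw2, hwm, hmn⟩ := hKST V (kc a y) W t hk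
  have hcard : Fintype.card {v // kc a y v = none} = nv (kc a y) none := by
    unfold nv
    rw [Fintype.card_subtype]
  obtain ⟨N, hN⟩ : ∃ N : ℝ, N = Fintype.card V := ⟨_, rfl⟩
  obtain ⟨N', hN'⟩ : ∃ N' : ℝ, N' = nv (kc a y) none := ⟨_, rfl⟩
  obtain ⟨c, hc⟩ : ∃ c : ℝ, c = (a.Q y).card := ⟨_, rfl⟩
  have e1 : N' + c = N := by
    rw [hN, hN', hc]
    exact_mod_cast n1
  have hcw : c ≤ w := by
    rw [hc]
    exact_mod_cast hQ
  have hc0 : 0 ≤ c := by
    rw [hc]
    positivity
  rw [← hN] at hVr hwV hW h8 hηw h3 L1 ⊢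
  have hwN : (w : ℝ) ≤ N / 8 := by
    have : (w : ℝ) / N ≤ 1 / 8 := by linarith
    rw [div_le_iff₀ hVr] at this
    linarith
  have hNN : N / 2 ≤ N' := by linarith
  have hN'0 : 0 < N' := by linarith
  have hne : Nonempty {v // kc a y v = none} := by
    rw [← Fintype.card_pos_iff, hcard]
    have : (0 : ℝ) < nv (kc a y) none := by rw [← hN']; exact hN'0
    exact_mod_cast this
  have hW' : |((W - nv (kc a y) (some true) : ℕ) : ℝ) - N' / 2| ≤ (2 * δ + w / N) * N' := by
    rw [Nat.cast_sub hk]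
    obtain ⟨k, hkk⟩ : ∃ k : ℝ, k = nv (kc a y) (some true) := ⟨_, rfl⟩
    have hk0 : 0 ≤ k := by
      rw [hkk]
      positivity
    have hkc : k ≤ c := by
      rw [hkk, hc]
      exact_mod_cast n2
    rw [← hkk]
    obtain ⟨w1, w2⟩ := abs_le.1 hW
    have h5 : δ * N ≤ 2 * δ * N' := by
      have := mul_le_mul_of_nonneg_left hNN hδ
      linarith
    have h6 : (w : ℝ) / 2 ≤ w / N * N' := by
      have := mul_le_mul_of_nonneg_left hNN hwV
      have e : (w : ℝ) / N * (N / 2) = w / 2 := by field_simp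
      linarith
    rw [abs_le]
    constructor <;> linarith
  have h7 := hGWT {v // kc a y v = none} (W - nv (kc a y) (some true)) w (2 * δ + w / N) t'
    (by positivity) h8 (hw2.trans ht) (by rw [hcard, ← hN']; exact hW')
  rw [hcard, ← hN', ← hwm, ← hmn] at h7
  have h9 : 1 / √N' ≤ √(2 / N) := by
    have e : 1 / √N' = √(1 / N') := by
      rw [Real.sqrt_div' _ hN'0.le, Real.sqrt_one]
    rw [e]
    refine Real.sqrt_le_sqrt ?_
    rw [div_le_div_iff₀ hN'0 hVr]
    linarith
  have h10 : 16 / N' ≤ 32 / N := by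
    rw [div_le_div_iff₀ hN'0 hVr]
    linarith
  have hw0 : (0 : ℝ) ≤ 4 * w := by positivity
  have h11 := mul_le_mul_of_nonneg_left (add_le_add_left h9 (2 * δ + w / N)) hw0
  have h12 : |wm (kc a y) W t.ev - mn (rst (kc a y) t.ev)| ≤
      4 * w * (2 * δ + w / N + √(2 / N)) + 32 / N := by linarith
  have h13 : 0 ≤ wm (kc a y) W t.ev ∧ wm (kc a y) W t.ev ≤ 1 := by
    unfold wm
    refine ⟨div_nonneg (sum_nonneg fun y _ => hF0 y) (Nat.cast_nonneg _), ?_⟩
    refine div_le_one_of_le₀ ?_ (Nat.cast_nonneg _)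
    calc ∑ y ∈ ws (kc a y) W, t.ev y ≤ ∑ _y ∈ ws (kc a y) W, (1 : ℝ) :=
          sum_le_sum fun y _ => hF1 y
      _ = (ws (kc a y) W).card := by simp
  have h14 : Lr a W y * wm (kc a y) W t.ev - mn (rst (kc a y) t.ev) =
      (Lr a W y - 1) * wm (kc a y) W t.ev +
        (wm (kc a y) W t.ev - mn (rst (kc a y) t.ev)) := by ring
  rw [h14]
  refine (abs_add_le _ _).trans (add_le_add ?_ h12)
  rw [abs_mul, abs_of_nonneg h13.1]
  exact (mul_le_of_le_one_right (abs_nonneg _) h13.2).trans L1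

/-- a game times a leaf on strings of given weight, relative estimate -/
theorem rwt (hGWT : T_GWT) (hKST : T_KST) (a : Lf V) (t : Tr V) (W w : ℕ) (δ : ℝ)
    (hQ : ∀ y, (a.Q y).card ≤ w) (ht : t.wd ≤ w) (hδ : 0 ≤ δ)
    (hF0 : ∀ y, 0 ≤ t.ev y) (hF1 : ∀ y, t.ev y ≤ 1)
    (hW : |(W : ℝ) - Fintype.card V / 2| ≤ δ * Fintype.card V) (hw : 1 ≤ w)
    (h8 : 2 * δ + w / Fintype.card V ≤ 1 / 8) (hηw : 2 * (δ + w / Fintype.card V) * w ≤ 1)
    (hV : 0 < Fintype.card V) :
    |wm (fun _ => none) W (fun y => t.ev y * bi (a.f y)) - mn fun y => t.ev y * bi (a.f y)| ≤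
      (4 * (δ + w / Fintype.card V) * w +
        (4 * w * (2 * δ + w / Fintype.card V + √(2 / Fintype.card V)) + 32 / Fintype.card V)) *
        mn fun y => bi (a.f y) := by
  have hVr : (0 : ℝ) < Fintype.card V := by exact_mod_cast hV
  obtain ⟨w1, w2⟩ := abs_le.1 hW
  have hwN : (w : ℝ) ≤ Fintype.card V / 8 := by
    have : (w : ℝ) / Fintype.card V ≤ 1 / 8 := by linarith
    rw [div_le_iff₀ hVr] at this
    linarith
  have hδN : δ * Fintype.card V ≤ 1 / 16 * Fintype.card V := by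
    have : 0 ≤ (w : ℝ) / Fintype.card V := by positivity
    exact mul_le_mul_of_nonneg_right (by linarith) hVr.le
  have hWN : W ≤ Fintype.card V := by
    have : (W : ℝ) ≤ Fintype.card V := by linarith
    exact_mod_cast this
  have hwW : w ≤ W := by
    have : (w : ℝ) ≤ W := by linarith
    exact_mod_cast this
  have hwW' : w ≤ Fintype.card V - W := by
    have : (w : ℝ) ≤ ((Fintype.card V - W : ℕ) : ℝ) := by
      rw [Nat.cast_sub hWN]
      linarith
    exact_mod_cast this
  obtain ⟨A, hA⟩ : ∃ A, A = min W (Fintype.card V - W) - w := ⟨_, rfl⟩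
  have hAr : (A : ℝ) = min (W : ℝ) (Fintype.card V - W) - w := by
    rw [hA, Nat.cast_sub (by omega), Nat.cast_min, Nat.cast_sub hWN]
  have h1 : A + w ≤ W := by omega
  have h2 : A + w + W ≤ Fintype.card V := by omega
  have h3 : (1 / 2 - (δ + w / Fintype.card V)) * Fintype.card V ≤ A := by
    have e : (1 / 2 - (δ + w / Fintype.card V)) * (Fintype.card V : ℝ) =
        Fintype.card V / 2 - δ * Fintype.card V - w := by
      have e2 : (w : ℝ) / Fintype.card V * Fintype.card V = w := div_mul_cancel₀ _ hVr.ne'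
      linear_combination -e2
    rw [e, hAr]
    have : Fintype.card V / 2 - δ * Fintype.card V ≤ min (W : ℝ) (Fintype.card V - W) :=
      le_min (by linarith) (by linarith)
    linarith
  have hcell : ∀ y, wm (kc a y) W (fun y => t.ev y * bi (a.f y)) =
      bi (a.f y) * wm (kc a y) W t.ev := by
    intro y
    unfold wm
    rw [← mul_div_assoc, mul_sum]
    congr 1
    refine sum_congr rfl fun y' hy' => ?_
    have := (cl_data a ((ws_cl a W y y').1 hy').1).1
    simp only [this, mul_comm]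
  have hcell' : ∀ y, mn (rst (kc a y) fun y => t.ev y * bi (a.f y)) =
      bi (a.f y) * mn (rst (kc a y) t.ev) := by
    intro y
    unfold mn
    rw [← mul_div_assoc, mul_sum]
    congr 1
    refine sum_congr rfl fun y' _ => ?_
    unfold rst
    have h4 : (fun v => (kc a y v).getD (y' v)) ∈ cl a y := by
      rw [mem_cl]
      intro v hv
      unfold kc
      rw [if_pos hv]
      rfl
    have := (cl_data a h4).1
    simp only [this, mul_comm]
  rw [wm_cell a W, mn_cell a (fun y => t.ev y * bi (a.f y))]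
  simp only [hcell, hcell']
  obtain ⟨E, hE⟩ : ∃ E : ℝ, E = 4 * (δ + w / Fintype.card V) * w +
        (4 * w * (2 * δ + w / Fintype.card V + √(2 / Fintype.card V)) + 32 / Fintype.card V) :=
    ⟨_, rfl⟩
  rw [← hE]
  have hpt : ∀ y, |Lr a W y * (bi (a.f y) * wm (kc a y) W t.ev) -
      bi (a.f y) * mn (rst (kc a y) t.ev)| ≤ E * bi (a.f y) := by
    intro y
    have h5 := cell_bd hGWT hKST a t W w A δ y (hQ y) ht hδ hF0 hF1 hW hw h8 hηw h1 h2 h3 hV
    rw [← hE] at h5
    have e : Lr a W y * (bi (a.f y) * wm (kc a y) W t.ev) -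
        bi (a.f y) * mn (rst (kc a y) t.ev) =
        bi (a.f y) * (Lr a W y * wm (kc a y) W t.ev - mn (rst (kc a y) t.ev)) := by ring
    rw [e, abs_mul, abs_of_nonneg (bi01 _).1, mul_comm E]
    exact mul_le_mul_of_nonneg_left h5 (bi01 _).1
  unfold mn
  rw [← sub_div, ← sum_sub_distrib, abs_div, abs_of_nonneg (show (0 : ℝ) ≤ 2 ^ Fintype.card V by
    positivity), ← mul_div_assoc, mul_sum]
  refine div_le_div_of_nonneg_right ?_ (by positivity)
  exact (abs_sum_le_sum_abs _ _).trans (sum_le_sum fun y _ => hpt y)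

end

end Pool.Agent.H15.XH
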