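import Pool.Agent.H15.XH.RGT
import Pool.Agent.H88.IQ.GWA

/-!
# RGW: a game and an event on strings of given weight, relative estimate

A random restriction turns the game and the event into decision trees; on the cells of the event the
weight is not seen.
-/

set_option autoImplicit false

namespace Pool.Agent.H15.XH

open Finset Pool.Agent.H6.NB Pool.Agent.H70.EH Pool.Agent.H78.XQ
open Pool.Agent.H66.IQ
open Pool.Agent.H68.AC (PA Wt fd Ext ind)

/-- RGW: a game whose leaves are formulas on strings of given weight; the error is relative to the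
probability of the event `A`. -/
def T_RGW : Prop := ∀ (V : Type) [Fintype V] [DecidableEq V] [Nonempty V] (S d w W : ℕ) (δ : ℝ)
  (t : Tr V) (A : (V → Bool) → Bool), 1 ≤ w → 0 < δ →
  160 * w * δ * (128 * (w : ℝ)) ^ (d + 1) ≤ 1 →
  32 * (w : ℝ) ^ 2 * (128 * (w : ℝ)) ^ (d + 1) ≤ Fintype.card V →
  t.Cb S (d + 1) → Cl V S (d + 1) A →
  |(W : ℝ) - Fintype.card V / 2| ≤ δ * Fintype.card V →
  |wm (fun _ => none) W (fun y => t.ev y * bi (A y)) - mn fun y => t.ev y * bi (A y)| ≤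
    (60 * w * δ * (128 * (w : ℝ)) ^ (d + 1) +
      16 * (w : ℝ) ^ 2 * (128 * (w : ℝ)) ^ (d + 1) / Fintype.card V +
      4 * w * √(4 * (128 * (w : ℝ)) ^ (d + 1) / Fintype.card V) +
      64 * (128 * (w : ℝ)) ^ (d + 1) / Fintype.card V) * mn (fun y => bi (A y)) +
    ((2 ^ t.dp + 1) * ((S : ℝ) + 1) ^ (d + 1) / 2 ^ w +
      4 * Real.exp (-(Fintype.card V * δ ^ 2 / 4)))

/-- the leaf of a function -/
def lfA {V : Type} [Fintype V] (A : (V → Bool) → Bool) : Lf V where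
  f := A
  Q := fun _ => univ
  path := fun y y' h => by
    have : y' = y := funext fun v => h v (mem_univ v)
    rw [this]
    exact ⟨rfl, rfl⟩

section

variable {V : Type} [Fintype V] [DecidableEq V]

theorem dp_zero {X : Type} (t : Tr X) (h : t.dp = 0) : ∃ a : Lf X, t = Tr.lf a := by
  cases t with
  | lf a => exact ⟨a, rfl⟩
  | av l r => exact absurd h (by unfold Tr.dp; omega)
  | ch l r => exact absurd h (by unfold Tr.dp; omega)

omit [Fintype V] [DecidableEq V] in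
theorem rst_kstF (κ : V → Option Bool) (F : (V → Bool) → ℝ) (z : {v // κ v = none} → Bool) :
    rst κ F (Pool.Agent.H91.IQ.kstF κ z) = F (Pool.Agent.H91.IQ.kstF κ z) := by
  unfold rst
  congr 1
  funext v
  unfold Pool.Agent.H91.IQ.kstF
  by_cases h : κ v = none
  · rw [dif_pos h, h]
    rfl
  · rw [dif_neg h]
    obtain ⟨b, hb⟩ := Option.ne_none_iff_exists'.1 h
    rw [hb]
    rfl

omit [DecidableEq V] in
/-- substitution of the fixed variables -/
theorem sbt (hSBT : T_SBT) (κ : V → Option Bool) (t : Tr V) :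
    ∃ t' : Tr {v // κ v = none}, t'.dp ≤ t.dp ∧ t'.wd ≤ t.wd ∧
      ∀ z, t'.ev z = t.ev (Pool.Agent.H91.IQ.kstF κ z) := by
  obtain ⟨t', h1, h2, h3, h4⟩ := hSBT V {v // κ v = none} t
    (fun v => if h : κ v = none then Sum.inr ⟨v, h⟩ else Sum.inl ((κ v).getD false))
  refine ⟨t', h2.le, h3, ?_⟩
  intro z
  rw [h4]
  congr 1
  funext v
  unfold Pool.Agent.H91.IQ.kstF
  by_cases h : κ v = none
  · rw [dif_pos h, dif_pos h]
    rfl
  · rw [dif_neg h, dif_neg h]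
    rfl

/-- the error terms of a good restriction -/
theorem errs2 (w N N' L δ : ℝ) (hw : 0 ≤ w) (hN : 0 < N) (hL : 0 < L)
    (h : N ≤ 2 * L * N') :
    4 * (5 * δ * L + w / N') * w +
        (4 * w * (2 * (5 * δ * L) + w / N' + √(2 / N')) + 32 / N') ≤
      60 * w * δ * L + 16 * w ^ 2 * L / N + 4 * w * √(4 * L / N) + 64 * L / N := by
  have hN' : 0 < N' := by
    by_contra h1
    push Not at h1
    have := mul_nonpos_of_nonneg_of_nonpos (show 0 ≤ 2 * L by linarith) h1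
    linarith
  have key : 1 / N' ≤ 2 * L / N := by
    rw [div_le_div_iff₀ hN' hN]
    linarith
  have h1 : w / N' ≤ 2 * w * L / N := by
    have := mul_le_mul_of_nonneg_left key hw
    calc w / N' = w * (1 / N') := by ring
      _ ≤ w * (2 * L / N) := this
      _ = 2 * w * L / N := by ring
  have h2 : √(2 / N') ≤ √(4 * L / N) := by
    refine Real.sqrt_le_sqrt ?_
    calc 2 / N' = 2 * (1 / N') := by ring
      _ ≤ 2 * (2 * L / N) := by linarith
      _ = 4 * L / N := by ring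
  have h3 : 32 / N' ≤ 64 * L / N := by
    calc 32 / N' = 32 * (1 / N') := by ring
      _ ≤ 32 * (2 * L / N) := by linarith
      _ = 64 * L / N := by ring
  have h4 := mul_le_mul_of_nonneg_left h1 hw
  have h5 := mul_le_mul_of_nonneg_left h2 hw
  have e : 16 * w ^ 2 * L / N = 8 * (w * (2 * w * L / N)) := by ring
  rw [e]
  linarith

/-- a good restriction -/
theorem good2 (hGWT : T_GWT) (hKST : T_KST) (hSBT : T_SBT) (hEVS : T_EVS) (κ : V → Option Bool)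
    (W w : ℕ) (t t1 a1 : Tr V) (A : (V → Bool) → Bool) (hw : 1 ≤ w)
    (hwt : t1.wd ≤ w) (hev : ∀ y, t1.ev y = rst κ t.ev y)
    (hda : a1.dp = 0) (hwa : a1.wd ≤ w) (hea : ∀ y, a1.ev y = rst κ (fun y => bi (A y)) y)
    (M δ p L : ℝ) (hp : 0 < p) (hδ : 0 < δ) (hM : 0 < M)
    (hLp : L * p = 1) (hδL : 160 * w * δ * L ≤ 1) (hLM : 32 * (w : ℝ) ^ 2 * L ≤ M)
    (hW : |(W : ℝ) - M / 2| ≤ δ * M)
    (hm : |(nv κ none : ℝ) - p * M| ≤ δ * M)
    (ho : |(nv κ (some true) : ℝ) - (1 - p) / 2 * M| ≤ δ * M) :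
    |wm κ W (fun y => t.ev y * bi (A y)) - mn (rst κ fun y => t.ev y * bi (A y))| ≤
      (60 * w * δ * L + 16 * (w : ℝ) ^ 2 * L / M + 4 * w * √(4 * L / M) + 64 * L / M) *
        mn (rst κ fun y => bi (A y)) := by
  have hL : 0 < L := by
    by_contra hL
    push Not at hL
    have := mul_nonpos_of_nonpos_of_nonneg hL hp.le
    linarith
  have hwr : (1 : ℝ) ≤ w := by exact_mod_cast hw
  have hδL0 : 0 < δ * L := mul_pos hδ hL
  have hδL' : 160 * (δ * L) ≤ 1 := by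
    have := mul_le_mul_of_nonneg_left hwr (show 0 ≤ 160 * (δ * L) by positivity)
    linarith
  obtain ⟨h1, h2, h3, h4⟩ := Pool.Agent.H88.IQ.GWA.nums κ W M δ p L hp hδ hM hLp (by linarith) hW hm ho
  obtain ⟨t2, -, hwt2, hev2⟩ := sbt hSBT κ t1
  obtain ⟨a2, hda2, hwa2, hea2⟩ := sbt hSBT κ a1
  obtain ⟨b, rfl⟩ := dp_zero a2 (by omega)
  have hb : ∀ z, bi (b.f z) = bi (A (Pool.Agent.H91.IQ.kstF κ z)) := by
    intro z
    have e1 : (Tr.lf b).ev z = bi (b.f z) := rfl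
    rw [← e1, hea2, hea, rst_kstF]
  have ht2 : ∀ z, t2.ev z = t.ev (Pool.Agent.H91.IQ.kstF κ z) := by
    intro z
    rw [hev2, hev, rst_kstF]
  have hF2 : ∀ z, t2.ev z * bi (b.f z) =
      (fun y => t.ev y * bi (A y)) (Pool.Agent.H91.IQ.kstF κ z) := by
    intro z
    rw [ht2, hb]
  have hcard := Pool.Agent.H88.IQ.GWA.nv_none_card κ
  have hpM : 0 < p * M / 2 := by positivity
  have hnv : 0 < nv κ none := by
    have : (0 : ℝ) < nv κ none := lt_of_lt_of_le hpM h3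
    exact_mod_cast this
  have hQ : ∀ z, (b.Q z).card ≤ w := by
    intro z
    have h5 : (Tr.lf b).wd ≤ w := hwa2.trans hwa
    unfold Tr.wd at h5
    refine le_trans ?_ h5
    exact le_sup (f := fun y => (b.Q y).card) (@mem_univ _ (_) z)
  obtain ⟨N', hN'⟩ : ∃ N' : ℝ, N' = nv κ none := ⟨_, rfl⟩
  rw [← hN'] at h3 h4
  have hN'0 : 0 < N' := lt_of_lt_of_le hpM h3
  have hMN : M ≤ 2 * L * N' := by
    have := mul_le_mul_of_nonneg_left h3 (show 0 ≤ 2 * L by linarith)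
    have e : 2 * L * (p * M / 2) = (L * p) * M := by ring
    rw [e, hLp] at this
    linarith
  have hwN : (w : ℝ) / N' * w ≤ 1 / 16 := by
    rw [div_mul_eq_mul_div, div_le_iff₀ hN'0]
    have h6 : 32 * (w : ℝ) ^ 2 * L ≤ 2 * L * N' := hLM.trans hMN
    have h7 : L * (16 * (w : ℝ) ^ 2) ≤ L * N' := by linarith
    have h8 := le_of_mul_le_mul_left h7 hL
    nlinarith [h8]
  have hwN0 : 0 ≤ (w : ℝ) / N' := by positivity
  have hwN' : (w : ℝ) / N' ≤ 1 / 16 := (le_mul_of_one_le_right hwN0 hwr).trans hwN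
  have hres := rwt hGWT hKST b t2 (W - nv κ (some true)) w (5 * δ * L) hQ (hwt2.trans hwt)
    (by positivity)
    (fun z => (hEVS _ 1 t2 z one_pos).1.trans (hEVS _ 1 t2 z one_pos).2.1)
    (fun z => (hEVS _ 1 t2 z one_pos).2.2.1)
    (by rw [hcard, ← hN']; exact h4) hw
    (by rw [hcard, ← hN']; linarith)
    (by
      rw [hcard, ← hN']
      have e : 2 * (5 * δ * L + (w : ℝ) / N') * w = 10 * (w * δ * L) + 2 * ((w : ℝ) / N' * w) := by
        ring
      rw [e]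
      linarith)
    (by rw [hcard]; exact hnv)
  rw [hcard, ← hN'] at hres
  rw [Pool.Agent.H91.IQ.kst_wm κ W h1 _ _ hF2, Pool.Agent.H91.IQ.kst_mn κ _ _ hF2,
    Pool.Agent.H91.IQ.kst_mn κ (fun y => bi (A y)) (fun z => bi (b.f z)) hb]
  refine hres.trans (mul_le_mul_of_nonneg_right ?_
    (Pool.Agent.H70.EH.RL2.mn_nonneg _ fun z => (bi01 _).1))
  exact errs2 w M N' L δ (by linarith) hM hL hMN

/-- the lower bound -/
theorem low2 (hEXC : Pool.Agent.H78.XQ.T_EXC) (D W : ℕ) (q e B1 B2 : ℝ)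
    (P1 P2 : (Fin D → PA V) → Prop) (F B : (V → Bool) → ℝ) (hq0 : 0 ≤ q) (hq1 : q ≤ 1)
    (h0 : ∀ y, 0 ≤ F y) (h1 : ∀ y, F y ≤ 1) (hb : ∀ y, 0 ≤ B y) (he : 0 ≤ e)
    (hB1 : ∑ R, Wt q (1 / 2) R * ind (P1 R) ≤ B1)
    (hB2 : ∑ R, Wt q (1 / 2) R * ind (P2 R) ≤ B2)
    (hg : ∀ R, ¬ P1 R → ¬ P2 R →
      mn (rst (fd R D) F) - e * mn (rst (fd R D) B) ≤ wm (fd R D) W F) :
    mn F - e * mn B - (B1 + B2) ≤ wm (fun _ => none) W F := by
  have hpt : ∀ R : Fin D → PA V, mn (rst (fd R D) F) - e * mn (rst (fd R D) B) -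
      (ind (P1 R) + ind (P2 R)) ≤ wm (fd R D) W F := by
    intro R
    have hr := Pool.Agent.H88.IQ.GWA.mn_01 (rst (fd R D) F) (fun y => h0 _) (fun y => h1 _)
    have hw0 := Pool.Agent.H88.IQ.GWA.wm_nonneg (fd R D) W F h0
    have e1 := Pool.Agent.H88.IQ.GWA.ind_nonneg (P1 R)
    have e2 := Pool.Agent.H88.IQ.GWA.ind_nonneg (P2 R)
    have hbb := mul_nonneg he (Pool.Agent.H70.EH.RL2.mn_nonneg (rst (fd R D) B) fun y => hb _)
    by_cases c1 : P1 R
    · have e3 := Pool.Agent.H88.IQ.GWA.ind_one _ c1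
      linarith [hr.2]
    by_cases c2 : P2 R
    · have e3 := Pool.Agent.H88.IQ.GWA.ind_one _ c2
      linarith [hr.2]
    have := hg R c1 c2
    linarith
  have hW0 : ∀ R : Fin D → PA V, 0 ≤ Wt q (1 / 2) R := fun R =>
    Pool.Agent.H90.AC.Wt_nonneg hq0 hq1 (by norm_num) (by norm_num) R
  have hsum := Finset.sum_le_sum fun (R : Fin D → PA V) (_ : R ∈ univ) =>
    mul_le_mul_of_nonneg_left (hpt R) (hW0 R)
  have hE := hEXC V D q W F hq0 hq1 h0
  have hmn := Pool.Agent.H70.EH.RL2.sum_mn D q F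
  have hmb := Pool.Agent.H70.EH.RL2.sum_mn D q B
  have e : ∑ R : Fin D → PA V, Wt q (1 / 2) R *
      (mn (rst (fd R D) F) - e * mn (rst (fd R D) B) - (ind (P1 R) + ind (P2 R))) =
      ∑ R : Fin D → PA V, Wt q (1 / 2) R * mn (rst (fd R D) F) -
      e * (∑ R : Fin D → PA V, Wt q (1 / 2) R * mn (rst (fd R D) B)) -
      (∑ R : Fin D → PA V, Wt q (1 / 2) R * ind (P1 R) +
        ∑ R : Fin D → PA V, Wt q (1 / 2) R * ind (P2 R)) := by
    rw [Finset.mul_sum, ← Finset.sum_add_distrib, ← Finset.sum_sub_distrib,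
      ← Finset.sum_sub_distrib]
    refine Finset.sum_congr rfl fun R _ => ?_
    ring
  rw [e, hmn, hmb] at hsum
  linarith

end

/-- RGW: a game and an event on strings of given weight. -/
theorem pf_RGW (hSWD : T_SWD) (hGWT : T_GWT) (hKST : T_KST) (hSBT : T_SBT) (hEVS : T_EVS)
    (hHOE : Pool.Agent.H78.XQ.T_HOE) (hEXC : Pool.Agent.H78.XQ.T_EXC) : T_RGW := by
  intro V _ _ _ S d w W δ t A hw hδ hδL hLM hCb hA hW
  obtain ⟨Bad, hBad, hGood⟩ := hSWD V S d w t hw hCb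
  obtain ⟨Bad2, hBad2, hGood2⟩ := hSWD V S d w (Tr.lf (lfA A)) hw hA
  have hwr : (1 : ℝ) ≤ w := by exact_mod_cast hw
  have hM : (0 : ℝ) < Fintype.card V := by exact_mod_cast Fintype.card_pos
  have hnv0 : nv (fun _ : V => (none : Option Bool)) (some true) = 0 := by
    unfold nv
    simp
  have hnv1 : nv (fun _ : V => (none : Option Bool)) none = Fintype.card V := by
    unfold nv
    simp
  obtain ⟨M, hMe⟩ : ∃ M : ℝ, M = Fintype.card V := ⟨_, rfl⟩
  obtain ⟨q, hq⟩ : ∃ q : ℝ, q = 1 / (128 * (w : ℝ)) := ⟨_, rfl⟩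
  obtain ⟨L, hL⟩ : ∃ L : ℝ, L = (128 * (w : ℝ)) ^ (d + 1) := ⟨_, rfl⟩
  have hq0 : 0 < q := by rw [hq]; positivity
  have hq1 : q ≤ 1 := by
    rw [hq, div_le_one (by positivity)]
    linarith
  have hL1 : 1 ≤ L := by
    rw [hL]
    exact one_le_pow₀ (by linarith)
  have hLp : L * q ^ (d + 1) = 1 := by
    rw [hL, ← mul_pow, hq]
    have : 128 * (w : ℝ) * (1 / (128 * w)) = 1 := by field_simp
    rw [this, one_pow]
  have hH := hHOE V (d + 1) q δ hq0 hq1 hδ.le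
  rw [← hq] at hBad hBad2
  rw [← hMe] at hW hM hH hLM ⊢
  rw [← hL] at hδL hLM ⊢
  obtain ⟨p, hp⟩ : ∃ p : ℝ, p = q ^ (d + 1) := ⟨_, rfl⟩
  rw [← hp] at hLp hH
  have hp0 : 0 < p := by rw [hp]; positivity
  have hδw : δ ≤ 1 / 160 := by
    have h1 : 1 ≤ w * L := one_le_mul_of_one_le_of_one_le hwr hL1
    have h2 := mul_le_mul_of_nonneg_left h1 (show 0 ≤ 160 * δ by positivity)
    linarith
  have hδM : δ * M ≤ 1 / 160 * M := mul_le_mul_of_nonneg_right hδw hM.le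
  have hWM : (W : ℝ) ≤ M := by
    have := (abs_le.1 hW).2
    linarith
  rw [hMe] at hWM
  have hWN : W ≤ Fintype.card V := by exact_mod_cast hWM
  have hws : 0 < (ws (fun _ : V => (none : Option Bool)) W).card :=
    Pool.Agent.H88.IQ.GWA.ws_pos _ W (by rw [hnv0]; exact Nat.zero_le _)
      (by rw [hnv0, hnv1, zero_add]; exact hWN)
  have hF0 : ∀ y, 0 ≤ t.ev y * bi (A y) := fun y =>
    mul_nonneg ((hEVS V 1 t y one_pos).1.trans (hEVS V 1 t y one_pos).2.1) (bi01 _).1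
  have hF1 : ∀ y, t.ev y * bi (A y) ≤ 1 := fun y =>
    mul_le_one₀ (hEVS V 1 t y one_pos).2.2.1 (bi01 _).1 (bi01 _).2
  obtain ⟨F, hF⟩ : ∃ F : (V → Bool) → ℝ, F = fun y => t.ev y * bi (A y) := ⟨_, rfl⟩
  obtain ⟨B, hB⟩ : ∃ B : (V → Bool) → ℝ, B = fun y => bi (A y) := ⟨_, rfl⟩
  obtain ⟨e, he⟩ : ∃ e : ℝ, e = 60 * w * δ * L + 16 * (w : ℝ) ^ 2 * L / M +
      4 * w * √(4 * L / M) + 64 * L / M := ⟨_, rfl⟩
  have he0 : 0 ≤ e := by
    rw [he]
    positivity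
  have hgood : ∀ R : Fin (d + 1) → PA V, ¬ (Bad R ∨ Bad2 R) →
      ¬ (¬ (|(nv (fd R (d + 1)) none : ℝ) - p * M| ≤ δ * M ∧
        |(nv (fd R (d + 1)) (some true) : ℝ) - (1 - p) / 2 * M| ≤ δ * M)) →
      |wm (fd R (d + 1)) W F - mn (rst (fd R (d + 1)) F)| ≤ e * mn (rst (fd R (d + 1)) B) ∧
        0 < (ws (fd R (d + 1)) W).card := by
    intro R h1 h2
    rw [not_not] at h2
    rw [not_or] at h1
    obtain ⟨t', -, -, hwd, hev, -⟩ := hGood R h1.1
    obtain ⟨a', -, hdp, hwd2, hev2, -⟩ := hGood2 R h1.2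
    have h3 := good2 hGWT hKST hSBT hEVS (fd R (d + 1)) W w t t' a' A hw hwd hev
      (Nat.le_zero.1 hdp) hwd2 hev2 M δ p L hp0 hδ hM hLp hδL hLM hW h2.1 h2.2
    have h5 : 40 * δ * L ≤ 1 := by
      have := mul_le_mul_of_nonneg_left hwr (show 0 ≤ 160 * (δ * L) by positivity)
      have h6 : 0 ≤ δ * L := by positivity
      linarith
    obtain ⟨n1, n2, -, -⟩ := Pool.Agent.H88.IQ.GWA.nums (fd R (d + 1)) W M δ p L hp0 hδ hM hLp
      h5 hW h2.1 h2.2
    rw [← he, ← hF, ← hB] at h3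
    exact ⟨h3, Pool.Agent.H88.IQ.GWA.ws_pos _ W n1 n2⟩
  have hW0 : ∀ R : Fin (d + 1) → PA V, 0 ≤ Wt q (1 / 2) R := fun R =>
    Pool.Agent.H90.AC.Wt_nonneg hq0.le hq1 (by norm_num) (by norm_num) R
  have hBB : ∑ R, Wt q (1 / 2) R * ind (Bad R ∨ Bad2 R) ≤
      2 ^ t.dp * ((S : ℝ) + 1) ^ (d + 1) / 2 ^ w + ((S : ℝ) + 1) ^ (d + 1) / 2 ^ w := by
    have h1 : ∀ R, Wt q (1 / 2) R * ind (Bad R ∨ Bad2 R) ≤
        Wt q (1 / 2) R * ind (Bad R) + Wt q (1 / 2) R * ind (Bad2 R) := by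
      intro R
      rw [← mul_add]
      refine mul_le_mul_of_nonneg_left ?_ (hW0 R)
      have e1 := Pool.Agent.H88.IQ.GWA.ind_nonneg (Bad R)
      have e2 := Pool.Agent.H88.IQ.GWA.ind_nonneg (Bad2 R)
      by_cases c1 : Bad R
      · rw [Pool.Agent.H88.IQ.GWA.ind_one _ (Or.inl c1 : Bad R ∨ Bad2 R),
          Pool.Agent.H88.IQ.GWA.ind_one _ c1]
        linarith
      by_cases c2 : Bad2 R
      · rw [Pool.Agent.H88.IQ.GWA.ind_one _ (Or.inr c2 : Bad R ∨ Bad2 R),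
          Pool.Agent.H88.IQ.GWA.ind_one _ c2]
        linarith
      have : ind (Bad R ∨ Bad2 R) = 0 := by
        unfold ind
        rw [if_neg (by tauto)]
      rw [this]
      linarith
    refine (sum_le_sum fun R _ => h1 R).trans ?_
    rw [sum_add_distrib]
    refine add_le_add hBad (hBad2.trans (le_of_eq ?_))
    have : (Tr.lf (lfA A)).dp = 0 := rfl
    rw [this, pow_zero, one_mul]
  have hlow := low2 hEXC (d + 1) W q e _ _ (fun R => Bad R ∨ Bad2 R)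
    (fun R => ¬ (|(nv (fd R (d + 1)) none : ℝ) - p * M| ≤ δ * M ∧
        |(nv (fd R (d + 1)) (some true) : ℝ) - (1 - p) / 2 * M| ≤ δ * M)) F B hq0.le hq1
    (by rw [hF]; exact hF0) (by rw [hF]; exact hF1) (by rw [hB]; exact fun y => (bi01 _).1)
    he0 hBB hH (fun R h1 h2 => by
      have := (abs_le.1 (hgood R h1 h2).1).1
      linarith)
  have hupp := low2 hEXC (d + 1) W q e _ _ (fun R => Bad R ∨ Bad2 R)
    (fun R => ¬ (|(nv (fd R (d + 1)) none : ℝ) - p * M| ≤ δ * M ∧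
        |(nv (fd R (d + 1)) (some true) : ℝ) - (1 - p) / 2 * M| ≤ δ * M))
    (fun y => 1 - F y) B hq0.le hq1 (fun y => by rw [hF]; linarith [hF1 y])
    (fun y => by rw [hF]; linarith [hF0 y]) (by rw [hB]; exact fun y => (bi01 _).1)
    he0 hBB hH (fun R h1 h2 => by
      have h3 := (abs_le.1 (hgood R h1 h2).1).2
      rw [Pool.Agent.H88.IQ.GWA.wm_compl _ _ _ (hgood R h1 h2).2]
      have h4 : rst (fd R (d + 1)) (fun y => 1 - F y) =
          fun y => 1 - rst (fd R (d + 1)) F y := rfl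
      rw [h4, Pool.Agent.H88.IQ.GWA.mn_compl]
      linarith)
  rw [Pool.Agent.H88.IQ.GWA.wm_compl _ _ _ hws, Pool.Agent.H88.IQ.GWA.mn_compl] at hupp
  rw [← he, ← hF, ← hB]
  have e5 : (2 ^ t.dp + 1) * ((S : ℝ) + 1) ^ (d + 1) / 2 ^ w =
      2 ^ t.dp * ((S : ℝ) + 1) ^ (d + 1) / 2 ^ w + ((S : ℝ) + 1) ^ (d + 1) / 2 ^ w := by ring
  rw [e5]
  rw [abs_le]
  constructor <;> linarith

end Pool.Agent.H15.XH
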